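import Pool.Agent.Helper15.HS.GoalsC

/-! # HS, packet LIMG: the limit theorem with weights -/

open Complex Metric Set Filter Topology MeasureTheory
open scoped ContDiff ComplexConjugate ComplexOrder Manifold Matrix

namespace Pool.Agent.Helper33.HS

open Pool.Agent.Helper95.Lin Pool.Agent.Helper16.Abund Pool.Agent.Helper92.Orb
  Pool.Agent.Helper10.SP Pool.Agent.Helper95.RK Pool.Agent.Helper57.HS Pool.Agent.Helper15.HS

universe u

namespace LimG

lemma thM_nonneg (M t : ℝ) : 0 ≤ thM M t := Real.smoothTransition.nonneg _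

lemma thM_le_one (M t : ℝ) : thM M t ≤ 1 := Real.smoothTransition.le_one _

lemma thM_le_exp {M : ℝ} (hM : 0 < M) (t : ℝ) :
    thM M t ≤ Real.exp (2 * M) * Real.exp t := by
  by_cases h : t ≤ - 2 * M
  · have h0 : thM M t = 0 := by
      refine Real.smoothTransition.zero_of_nonpos ?_
      have : t / M ≤ -2 := by rw [div_le_iff₀ hM]; exact h
      linarith
    rw [h0]
    positivity
  · have h1 : 1 ≤ Real.exp (2 * M) * Real.exp t := by
      rw [← Real.exp_add]
      exact Real.one_le_exp (by linarith)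
    exact (thM_le_one _ _).trans h1

lemma exp_mul_one_sub {M : ℝ} (hM : 0 < M) (t : ℝ) :
    Real.exp t * (1 - thM M t) ≤ Real.exp (-M) := by
  by_cases h : -M ≤ t
  · have h0 : thM M t = 1 := by
      refine Real.smoothTransition.one_of_one_le ?_
      have : -1 ≤ t / M := by rw [le_div_iff₀ hM]; linarith
      linarith
    rw [h0, sub_self, mul_zero]
    positivity
  · have h1 : Real.exp t ≤ Real.exp (-M) := Real.exp_le_exp.2 (by linarith)
    have h2 := thM_nonneg M t
    have h3 := thM_le_one M t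
    calc Real.exp t * (1 - thM M t) ≤ Real.exp t * 1 :=
          mul_le_mul_of_nonneg_left (by linarith) (Real.exp_pos _).le
      _ ≤ _ := by rw [mul_one]; exact h1

lemma thM_smooth {n : ℕ} {T : Set (Cn n)} {u : Cn n → ℝ} (hu : ContDiffOn ℝ ∞ u T) (M : ℝ) :
    ContDiffOn ℝ ∞ (fun x => ((thM M (u x) : ℝ) : ℂ)) T := by
  have h1 : ContDiffOn ℝ ∞ (fun x => thM M (u x)) T := by
    unfold thM
    exact Real.smoothTransition.contDiff.comp_contDiffOn ((hu.div_const M).add contDiffOn_const)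
  exact Complex.ofRealCLM.contDiff.comp_contDiffOn h1

/-- exhaustion by compact sets -/
lemma exhaust {n : ℕ} {T : Set (Cn n)} (hT : IsOpen T) : ∃ C : ℕ → Set (Cn n),
    (∀ m, IsCompact (C m)) ∧ (∀ m, C m ⊆ T) ∧ ∀ D ⊆ T, IsCompact D → ∃ m, D ⊆ C m := by
  have : LocallyCompactSpace T := hT.locallyCompactSpace
  let E := CompactExhaustion.choice T
  refine ⟨fun m => Subtype.val '' (E m), fun m => (E.isCompact m).image continuous_subtype_val,
    fun m => ?_, fun D hD hDc => ?_⟩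
  · rintro _ ⟨y, _, rfl⟩
    exact y.2
  · have h1 : IsCompact ((Subtype.val : T → Cn n) ⁻¹' D) :=
      Topology.IsInducing.subtypeVal.isCompact_preimage' hDc (by simpa using hD)
    obtain ⟨m, hm⟩ := E.exists_superset_of_isCompact h1
    exact ⟨m, fun x hx => ⟨⟨x, hD hx⟩, hm hx, rfl⟩⟩

variable {n : ℕ} {T : Set (Cn n)}

lemma intOn {E : Type*} [NormedAddCommGroup E] {C : Set (Cn n)} (hCT : C ⊆ T)
    (hC : IsCompact C) {f : Cn n → E} (hf : ContinuousOn f T) : IntegrableOn f C volume :=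
  (hf.mono hCT).integrableOn_compact hC

/-- the bound for one cut-off function -/
lemma cut_bound (hW : S_WIRT) (hT : IsOpen T) {C : Set (Cn n)} (hCT : C ⊆ T) (hC : IsCompact C)
    {v : Cn n → ℝ} (hv : ContDiffOn ℝ ∞ v T) {z : Cn n → ℂ} (hz : ContDiffOn ℝ ∞ z T)
    {B B' : ℝ} (hB : ∀ x ∈ C, ‖z x‖ ≤ B) (hB0 : 0 ≤ B) {M : ℝ} (hM : 1 ≤ M)
    (hE : ∫ x in C, ∑ l, ‖cdb l (fun y => ((thM M (v y) : ℝ) : ℂ)) x‖ ^ 2 ≤ B' / M)
    (l : Fin n) :
    ∫ x in C, ‖cdb l (fun y => ((thM M (v y) : ℝ) : ℂ) * z y) x‖ ≤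
      Real.exp (2 * M) * (∫ x in C, Real.exp (v x) * ‖cdb l z x‖) +
        B * (volume.real C + B') / √M := by
  have hM0 : 0 < M := by linarith
  have hs0 : 0 < √M := Real.sqrt_pos.2 hM0
  have hss : √M * √M = M := Real.mul_self_sqrt hM0.le
  have hth := thM_smooth hv M
  obtain ⟨w1, -, w3, -⟩ := hW T hT (fun y => ((thM M (v y) : ℝ) : ℂ)) z hth hz
  obtain ⟨w1', -⟩ := hW T hT z z hz hz
  obtain ⟨w1'', -⟩ := hW T hT (fun y => ((thM M (v y) : ℝ) : ℂ) * z y) z (hth.mul hz) hz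
  have c1 : ContinuousOn (fun x => Real.exp (v x) * ‖cdb l z x‖) T :=
    (Real.continuous_exp.comp_continuousOn hv.continuousOn).mul
      ((w1' l).2.continuousOn.norm)
  have c2 : ContinuousOn (fun x => ∑ l, ‖cdb l (fun y => ((thM M (v y) : ℝ) : ℂ)) x‖ ^ 2) T :=
    continuousOn_finsetSum _ fun i _ => ((w1 i).2.continuousOn.norm).pow 2
  have i1 := intOn hCT hC c1
  have i2 := intOn hCT hC c2
  have i0 : IntegrableOn (fun _ : Cn n => (1 : ℝ)) C volume :=
    intOn hCT hC continuousOn_const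
  have hpt : ∀ x ∈ C, ‖cdb l (fun y => ((thM M (v y) : ℝ) : ℂ) * z y) x‖ ≤
      Real.exp (2 * M) * (Real.exp (v x) * ‖cdb l z x‖) +
        (B / √M * 1 + B * √M * ∑ l, ‖cdb l (fun y => ((thM M (v y) : ℝ) : ℂ)) x‖ ^ 2) := by
    intro x hx
    rw [(w3 l x (hCT hx)).2]
    refine (norm_add_le _ _).trans (add_le_add ?_ ?_)
    · rw [norm_mul, Complex.norm_real, Real.norm_of_nonneg (thM_nonneg _ _), ← mul_assoc]
      exact mul_le_mul_of_nonneg_right (thM_le_exp hM0 _) (norm_nonneg _)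
    · rw [norm_mul]
      set y := ‖cdb l (fun y => ((thM M (v y) : ℝ) : ℂ)) x‖ with hy
      have hy0 : 0 ≤ y := norm_nonneg _
      have h1 : y ^ 2 ≤ ∑ l, ‖cdb l (fun y => ((thM M (v y) : ℝ) : ℂ)) x‖ ^ 2 :=
        Finset.single_le_sum (f := fun l => ‖cdb l (fun y => ((thM M (v y) : ℝ) : ℂ)) x‖ ^ 2)
          (fun i _ => by positivity) (Finset.mem_univ l)
      have h2 : y ≤ 1 / √M + √M * y ^ 2 := by
        have h3 : 0 ≤ (√M * y - 1) ^ 2 / √M := by positivity
        have h4 : (√M * y - 1) ^ 2 / √M = √M * y ^ 2 - 2 * y + 1 / √M := by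
          field_simp
          ring
        linarith
      calc ‖z x‖ * y ≤ B * y := mul_le_mul_of_nonneg_right (hB x hx) hy0
        _ ≤ B * (1 / √M + √M * ∑ l, ‖cdb l (fun y => ((thM M (v y) : ℝ) : ℂ)) x‖ ^ 2) :=
            mul_le_mul_of_nonneg_left (h2.trans (by gcongr)) hB0
        _ = _ := by ring
  have j1 : IntegrableOn (fun x => Real.exp (2 * M) * (Real.exp (v x) * ‖cdb l z x‖)) C volume :=
    i1.const_mul _
  have j0 : IntegrableOn (fun _ : Cn n => B / √M * (1 : ℝ)) C volume := i0.const_mul _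
  have j2 : IntegrableOn (fun x => B * √M *
      ∑ l, ‖cdb l (fun y => ((thM M (v y) : ℝ) : ℂ)) x‖ ^ 2) C volume := i2.const_mul _
  have j3 : IntegrableOn (fun x => B / √M * (1 : ℝ) + B * √M *
      ∑ l, ‖cdb l (fun y => ((thM M (v y) : ℝ) : ℂ)) x‖ ^ 2) C volume := j0.add j2
  have j4 : IntegrableOn (fun x => Real.exp (2 * M) * (Real.exp (v x) * ‖cdb l z x‖) +
      (B / √M * (1 : ℝ) + B * √M *
      ∑ l, ‖cdb l (fun y => ((thM M (v y) : ℝ) : ℂ)) x‖ ^ 2)) C volume := j1.add j3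
  refine (setIntegral_mono_on (intOn hCT hC (w1'' l).2.continuousOn.norm) j4
    hC.measurableSet hpt).trans ?_
  rw [integral_add j1 j3, integral_add j0 j2, integral_const_mul, integral_const_mul,
    integral_const_mul, setIntegral_const, smul_eq_mul, mul_one]
  refine add_le_add le_rfl ?_
  have h5 : B * √M * ∫ x in C, ∑ l, ‖cdb l (fun y => ((thM M (v y) : ℝ) : ℂ)) x‖ ^ 2 ≤
      B * √M * (B' / M) := mul_le_mul_of_nonneg_left hE (by positivity)
  have h6 : B * √M * (B' / M) = B * B' / √M := by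
    rw [mul_div_assoc', div_eq_div_iff hM0.ne' hs0.ne']
    linear_combination (B * B') * hss
  have h7 : B * (volume.real C + B') / √M = B / √M * volume.real C + B * B' / √M := by
    ring
  rw [h7, ← h6]
  exact add_le_add le_rfl h5

end LimG

open LimG in
theorem limg (hW : S_WIRT) (hE : S_ENER.{u}) (hD : S_DBC) : S_LIMG.{u} := by
  intro n ι _ T G _ R H hK K u Z hu hZ hB hI
  have hTo := hK.et.isOpen
  obtain ⟨C, hCc, hCT, hCD⟩ := exhaust hTo
  have hus : ∀ j, ContDiffOn ℝ ∞ (u j) T := fun j => (hu j).inv.1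
  have hcd : ∀ j c l, ContinuousOn (fun x => cdb l (fun y => Z j y c) x) T := fun j c l =>
    ((hW T hTo _ _ (hZ j c) (hZ j c)).1 l).2.continuousOn
  have hcI : ∀ j c l, ContinuousOn (fun x => Real.exp (u j x) *
      ‖cdb l (fun y => Z j y c) x‖) T := fun j c l =>
    (Real.continuous_exp.comp_continuousOn (hus j).continuousOn).mul (hcd j c l).norm
  -- the subsequence
  obtain ⟨ψ, hψ, hψP⟩ := Filter.extraction_forall_of_eventually
    (P := fun M j => ∀ m ∈ Finset.range (M + 1), ∀ l : Fin n, ∀ c : ι,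
      Real.exp (2 * ((M : ℝ) + 1)) * ∫ x in C m, Real.exp (u j x) *
        ‖cdb l (fun y => Z j y c) x‖ ≤ 1 / ((M : ℝ) + 1)) (by
      intro M
      rw [Filter.eventually_all_finset]
      intro m _
      rw [Filter.eventually_all]
      intro l
      rw [Filter.eventually_all]
      intro c
      have h1 := (hI (C m) (hCT m) (hCc m) l c).const_mul (Real.exp (2 * ((M : ℝ) + 1)))
      rw [mul_zero] at h1
      exact (h1.eventually_lt_const (by positivity : (0 : ℝ) < 1 / ((M : ℝ) + 1))).mono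
        fun _ h => h.le)
  set F : ℕ → Cn n → ι → ℂ := fun M x c =>
    ((thM ((M : ℝ) + 1) (u (ψ M) x) : ℝ) : ℂ) * Z (ψ M) x c with hF
  have hFs : ∀ M c, ContDiffOn ℝ ∞ (fun x => F M x c) T := fun M c =>
    (thM_smooth (hus (ψ M)) _).mul (hZ (ψ M) c)
  have hFB : ∀ D ⊆ T, IsCompact D → ∃ B : ℝ, ∀ M, ∀ x ∈ D, ∀ c, ‖F M x c‖ ≤ B := by
    intro D hDT hD'
    obtain ⟨B, hB'⟩ := hB D hDT hD'
    refine ⟨B, fun M x hx c => ?_⟩
    rw [hF]
    simp only
    rw [norm_mul, Complex.norm_real, Real.norm_of_nonneg (thM_nonneg _ _)]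
    refine (mul_le_of_le_one_left (norm_nonneg _) (thM_le_one _ _)).trans (hB' _ x hx c)
  have hFI : ∀ D ⊆ T, IsCompact D → ∀ l c, Tendsto (fun M => ∫ x in D,
      ‖cdb l (fun y => F M y c) x‖) atTop (𝓝 0) := by
    intro D hDT hD' l c
    obtain ⟨B, hB'⟩ := hB D hDT hD'
    obtain ⟨B2, hB2⟩ := hE T R H hK K D hDT hD'
    obtain ⟨m, hm⟩ := hCD D hDT hD'
    have hlim : Tendsto (fun M : ℕ => 1 / ((M : ℝ) + 1) +
        (max B 0) * (volume.real D + B2) / √((M : ℝ) + 1)) atTop (𝓝 0) := by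
      have h1 : Tendsto (fun M : ℕ => 1 / ((M : ℝ) + 1)) atTop (𝓝 0) :=
        tendsto_one_div_add_atTop_nhds_zero_nat
      have h2 : Tendsto (fun M : ℕ => √((M : ℝ) + 1)) atTop atTop :=
        Real.tendsto_sqrt_atTop.comp (tendsto_atTop_add_const_right _ _
          tendsto_natCast_atTop_atTop)
      have h3 := (tendsto_const_nhds (x := (max B 0) * (volume.real D + B2))).div_atTop h2
      simpa using h1.add h3
    refine squeeze_zero' (Eventually.of_forall fun M =>
      integral_nonneg fun x => norm_nonneg _) ?_ hlim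
    filter_upwards [eventually_ge_atTop m] with M hM
    have h1 := cut_bound (M := (M : ℝ) + 1) (B := max B 0) (B' := B2) hW hTo hDT hD' (hus (ψ M))
      (hZ (ψ M) c) (fun x hx => (hB' _ x hx c).trans (le_max_left _ _)) (le_max_right _ _)
      (by have : (0 : ℝ) ≤ M := Nat.cast_nonneg M
          linarith)
      (hB2 _ (hu (ψ M)) _ (by have : (0 : ℝ) ≤ M := Nat.cast_nonneg M
                              linarith)) l
    refine h1.trans (add_le_add ?_ le_rfl)
    refine le_trans (mul_le_mul_of_nonneg_left ?_ (Real.exp_pos _).le)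
      (hψP M m (Finset.mem_range.2 (by omega)) l c)
    refine setIntegral_mono_set (intOn (hCT m) (hCc m) (hcI _ c l)) ?_
      (LE.le.eventuallyLE hm)
    exact Eventually.of_forall fun x => mul_nonneg (Real.exp_pos _).le (norm_nonneg _)
  obtain ⟨φ, hφ, P, hP, hPl⟩ := hD T hTo F hFs hFB hFI
  refine ⟨ψ ∘ φ, hψ.comp hφ, P, hP, fun D hDT hD' c => ?_⟩
  obtain ⟨B, hB'⟩ := hB D hDT hD'
  have hlim : Tendsto (fun j => (max B 0) * Real.exp (-((φ j : ℝ) + 1)) * volume.real D +
      Real.exp K * ∫ x in D, ‖F (φ j) x c - P x c‖) atTop (𝓝 0) := by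
    have h1 : Tendsto (fun j : ℕ => Real.exp (-((φ j : ℝ) + 1))) atTop (𝓝 0) :=
      Real.tendsto_exp_neg_atTop_nhds_zero.comp (tendsto_atTop_add_const_right _ _
        (tendsto_natCast_atTop_atTop.comp hφ.tendsto_atTop))
    have h2 := ((h1.const_mul (max B 0)).mul_const (volume.real D)).add
      ((hPl D hDT hD' c).const_mul (Real.exp K))
    simpa using h2
  refine squeeze_zero (fun j => integral_nonneg fun x => mul_nonneg (Real.exp_pos _).le
    (norm_nonneg _)) (fun j => ?_) hlim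
  have hZc : ContinuousOn (fun x => Z (ψ (φ j)) x c) T := (hZ (ψ (φ j)) c).continuousOn
  have hPc : ContinuousOn (fun x => P x c) T := (hP c).continuousOn
  have hFc : ContinuousOn (fun x => F (φ j) x c) T := (hFs (φ j) c).continuousOn
  have c1 : ContinuousOn (fun x => Real.exp (u (ψ (φ j)) x) *
      ‖Z (ψ (φ j)) x c - P x c‖) T :=
    (Real.continuous_exp.comp_continuousOn (hus (ψ (φ j))).continuousOn).mul (hZc.sub hPc).norm
  have i0 : IntegrableOn (fun _ : Cn n => (1 : ℝ)) D volume :=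
    intOn hDT hD' continuousOn_const
  have i2 : IntegrableOn (fun x => ‖F (φ j) x c - P x c‖) D volume :=
    intOn hDT hD' (hFc.sub hPc).norm
  have hpt : ∀ x ∈ D, Real.exp (u (ψ (φ j)) x) * ‖Z (ψ (φ j)) x c - P x c‖ ≤
      (max B 0) * Real.exp (-((φ j : ℝ) + 1)) * 1 + Real.exp K * ‖F (φ j) x c - P x c‖ := by
    intro x hx
    have hM0 : (0 : ℝ) < (φ j : ℝ) + 1 := by positivity
    set θ := thM ((φ j : ℝ) + 1) (u (ψ (φ j)) x) with hθ
    have hFx : F (φ j) x c = (θ : ℂ) * Z (ψ (φ j)) x c := rfl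
    have h1 : Z (ψ (φ j)) x c - P x c = ((1 - θ : ℝ) : ℂ) * Z (ψ (φ j)) x c +
        (F (φ j) x c - P x c) := by
      rw [hFx]
      push_cast
      ring
    have h2 : ‖Z (ψ (φ j)) x c - P x c‖ ≤ (1 - θ) * ‖Z (ψ (φ j)) x c‖ +
        ‖F (φ j) x c - P x c‖ := by
      conv_lhs => rw [h1]
      refine (norm_add_le _ _).trans (add_le_add ?_ le_rfl)
      rw [norm_mul, Complex.norm_real, Real.norm_of_nonneg]
      exact sub_nonneg.2 (thM_le_one _ _)
    calc Real.exp (u (ψ (φ j)) x) * ‖Z (ψ (φ j)) x c - P x c‖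
        ≤ Real.exp (u (ψ (φ j)) x) * ((1 - θ) * ‖Z (ψ (φ j)) x c‖ +
            ‖F (φ j) x c - P x c‖) := mul_le_mul_of_nonneg_left h2 (Real.exp_pos _).le
      _ = (Real.exp (u (ψ (φ j)) x) * (1 - θ)) * ‖Z (ψ (φ j)) x c‖ +
            Real.exp (u (ψ (φ j)) x) * ‖F (φ j) x c - P x c‖ := by ring
      _ ≤ Real.exp (-((φ j : ℝ) + 1)) * (max B 0) + Real.exp K * ‖F (φ j) x c - P x c‖ := by
          refine add_le_add ?_ ?_
          · exact mul_le_mul (exp_mul_one_sub hM0 _) ((hB' _ x hx c).trans (le_max_left _ _))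
              (norm_nonneg _) (Real.exp_pos _).le
          · exact mul_le_mul_of_nonneg_right (Real.exp_le_exp.2 ((hu _).le x (hDT hx)))
              (norm_nonneg _)
      _ = _ := by ring
  have j0 : IntegrableOn (fun _ : Cn n => (max B 0) * Real.exp (-((φ j : ℝ) + 1)) * (1 : ℝ))
    D volume := i0.const_mul _
  have j2 : IntegrableOn (fun x => Real.exp K * ‖F (φ j) x c - P x c‖) D volume :=
    i2.const_mul _
  have j3 : IntegrableOn (fun x => (max B 0) * Real.exp (-((φ j : ℝ) + 1)) * (1 : ℝ) +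
    Real.exp K * ‖F (φ j) x c - P x c‖) D volume := j0.add j2
  refine (setIntegral_mono_on (intOn hDT hD' c1) j3 hD'.measurableSet hpt).trans (le_of_eq ?_)
  rw [integral_add j0 j2, integral_const_mul, integral_const_mul,
    setIntegral_const, smul_eq_mul, mul_one]

end Pool.Agent.Helper33.HS
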